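import Pool.Agent.Y995.LG.Stm

/-!
# LG-GENA: almost all lines are not touched at a local extremum
-/

set_option autoImplicit false

namespace Pool.Agent.Y495.LG

open H984P H984N MeasureTheory Filter Topology Pool.Agent.Y995.LG
open scoped ENNReal

/-- The periodic extension of a closed curve is continuous. -/
lemma per_cont (c : C(unitInterval, ℂ)) (hc : c 0 = c 1) : Continuous (per c) := by
  have h1 : ContinuousOn (Set.IccExtend (zero_le_one : (0 : ℝ) ≤ 1) c) (Set.Icc 0 1) :=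
    (c.continuous.Icc_extend').continuousOn
  have h2 : Set.IccExtend (zero_le_one : (0 : ℝ) ≤ 1) c 0 =
      Set.IccExtend (zero_le_one : (0 : ℝ) ≤ 1) c 1 := by
    rw [Set.IccExtend_left, Set.IccExtend_right]
    exact hc
  have h3 := ContinuousOn.comp_fract'' h1 h2
  have h4 : per c = Set.IccExtend (zero_le_one : (0 : ℝ) ≤ 1) c ∘ Int.fract := by
    funext t
    unfold per
    show _ = Set.IccExtend (zero_le_one : (0 : ℝ) ≤ 1) c (Int.fract t)
    rw [Set.IccExtend_of_mem _ _ ⟨Int.fract_nonneg t, (Int.fract_lt_one t).le⟩]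
  rw [h4]
  exact h3

/-- evaluation is measurable -/
lemma eval_meas (f : ℂ → ℝ) (hf : Continuous f) (t : ℝ) :
    Measurable (fun p : X => f (per p.1 t)) := by
  apply hf.measurable.comp
  unfold per
  exact (continuous_eval_const
    (⟨Int.fract t, Int.fract_nonneg t, (Int.fract_lt_one t).le⟩ : unitInterval)).measurable.comp
    measurable_fst

/-- the supremum over the rationals of an interval -/
noncomputable def sp (f : ℂ → ℝ) (i : ℚ × ℚ) (p : X) : ℝ :=
  ⨆ q : {q : ℚ // i.1 < q ∧ q < i.2}, f (per p.1 (q : ℚ))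

/-- the infimum over the rationals of an interval -/
noncomputable def si (f : ℂ → ℝ) (i : ℚ × ℚ) (p : X) : ℝ :=
  ⨅ q : {q : ℚ // i.1 < q ∧ q < i.2}, f (per p.1 (q : ℚ))

lemma sp_meas (f : ℂ → ℝ) (hf : Continuous f) (i : ℚ × ℚ) : Measurable (sp f i) :=
  Measurable.iSup (fun q => eval_meas f hf _)

lemma si_meas (f : ℂ → ℝ) (hf : Continuous f) (i : ℚ × ℚ) : Measurable (si f i) :=
  Measurable.iInf (fun q => eval_meas f hf _)

lemma ae_ne (μ : Measure X) [IsFiniteMeasure μ] (g : ℚ × ℚ → X → ℝ) (hg : ∀ i, Measurable (g i)) :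
    ∀ᵐ x : ℝ, ∀ᵐ p ∂μ, ∀ i, g i p ≠ x := by
  have h1 : (⋃ i, {x : ℝ | 0 < μ {p | g i p = x}}).Countable :=
    Set.countable_iUnion (fun i => Measure.countable_meas_level_set_pos (hg i))
  filter_upwards [h1.ae_notMem volume] with x hx
  rw [ae_all_iff]
  intro i
  have h2 : ¬ 0 < μ {p | g i p = x} := fun h => hx (Set.mem_iUnion.2 ⟨i, h⟩)
  have h3 : μ {p | g i p = x} = 0 := by
    rcases eq_or_ne (μ {p | g i p = x}) 0 with h | h
    · exact h
    · exact absurd (pos_iff_ne_zero.2 h) h2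
  rw [ae_iff]
  simpa using h3

/-- the supremum near a local maximum -/
lemma sp_eq (f : ℂ → ℝ) (hf : Continuous f) (p : X) (hp : p.1 0 = p.1 1) (t x ε : ℝ) (hε : 0 < ε)
    (ht : f (per p.1 t) = x) (h : ∀ s, |s - t| < ε → f (per p.1 s) ≤ x) :
    ∃ i : ℚ × ℚ, sp f i p = x := by
  have hc : Continuous (fun s => f (per p.1 s)) := hf.comp (per_cont p.1 hp)
  obtain ⟨a, ha1, ha2⟩ := exists_rat_btwn (show t - ε < t by linarith)
  obtain ⟨b, hb1, hb2⟩ := exists_rat_btwn (show t < t + ε by linarith)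
  refine ⟨(a, b), ?_⟩
  have hab : (a : ℝ) < b := ha2.trans hb1
  have hne : Nonempty {q : ℚ // (a, b).1 < q ∧ q < (a, b).2} := by
    obtain ⟨q, hq1, hq2⟩ := exists_rat_btwn hab
    exact ⟨⟨q, by exact_mod_cast hq1, by exact_mod_cast hq2⟩⟩
  apply ciSup_eq_of_forall_le_of_forall_lt_exists_gt
  · rintro ⟨q, hq1, hq2⟩
    apply h
    have h1 : (a : ℝ) < q := by exact_mod_cast hq1
    have h2 : (q : ℝ) < b := by exact_mod_cast hq2
    rw [abs_lt]
    constructor <;> linarith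
  · intro w hw
    have h1 : {s : ℝ | w < f (per p.1 s)} ∈ 𝓝 t := by
      apply (isOpen_lt continuous_const hc).mem_nhds
      show w < f (per p.1 t)
      rw [ht]
      exact hw
    have h2 : {s : ℝ | w < f (per p.1 s)} ∩ Set.Ioo (a : ℝ) b ∈ 𝓝 t :=
      inter_mem h1 (Ioo_mem_nhds ha2 hb1)
    obtain ⟨l, u, hlu, hsub⟩ := mem_nhds_iff_exists_Ioo_subset.1 h2
    obtain ⟨q, hq1, hq2⟩ := exists_rat_btwn (hlu.1.trans hlu.2)
    have h3 := hsub ⟨hq1, hq2⟩
    refine ⟨⟨q, by exact_mod_cast h3.2.1, by exact_mod_cast h3.2.2⟩, h3.1⟩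

/-- the infimum near a local minimum -/
lemma si_eq (f : ℂ → ℝ) (hf : Continuous f) (p : X) (hp : p.1 0 = p.1 1) (t x ε : ℝ) (hε : 0 < ε)
    (ht : f (per p.1 t) = x) (h : ∀ s, |s - t| < ε → x ≤ f (per p.1 s)) :
    ∃ i : ℚ × ℚ, si f i p = x := by
  have hc : Continuous (fun s => f (per p.1 s)) := hf.comp (per_cont p.1 hp)
  obtain ⟨a, ha1, ha2⟩ := exists_rat_btwn (show t - ε < t by linarith)
  obtain ⟨b, hb1, hb2⟩ := exists_rat_btwn (show t < t + ε by linarith)
  refine ⟨(a, b), ?_⟩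
  have hab : (a : ℝ) < b := ha2.trans hb1
  have hne : Nonempty {q : ℚ // (a, b).1 < q ∧ q < (a, b).2} := by
    obtain ⟨q, hq1, hq2⟩ := exists_rat_btwn hab
    exact ⟨⟨q, by exact_mod_cast hq1, by exact_mod_cast hq2⟩⟩
  apply ciInf_eq_of_forall_ge_of_forall_gt_exists_lt
  · rintro ⟨q, hq1, hq2⟩
    apply h
    have h1 : (a : ℝ) < q := by exact_mod_cast hq1
    have h2 : (q : ℝ) < b := by exact_mod_cast hq2
    rw [abs_lt]
    constructor <;> linarith
  · intro w hw
    have h1 : {s : ℝ | f (per p.1 s) < w} ∈ 𝓝 t := by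
      apply (isOpen_lt hc continuous_const).mem_nhds
      show f (per p.1 t) < w
      rw [ht]
      exact hw
    have h2 : {s : ℝ | f (per p.1 s) < w} ∩ Set.Ioo (a : ℝ) b ∈ 𝓝 t :=
      inter_mem h1 (Ioo_mem_nhds ha2 hb1)
    obtain ⟨l, u, hlu, hsub⟩ := mem_nhds_iff_exists_Ioo_subset.1 h2
    obtain ⟨q, hq1, hq2⟩ := exists_rat_btwn (hlu.1.trans hlu.2)
    have h3 := hsub ⟨hq1, hq2⟩
    refine ⟨⟨q, by exact_mod_cast h3.2.1, by exact_mod_cast h3.2.2⟩, h3.1⟩

theorem gena : S_GENA := by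
  intro μ hμ f hf
  filter_upwards [ae_ne (μ : Measure X) (sp f) (sp_meas f hf),
    ae_ne (μ : Measure X) (si f) (si_meas f hf)] with x hx1 hx2
  filter_upwards [hμ, hx1, hx2] with p hp h1 h2
  intro t ht ε hε
  constructor
  · by_contra hcon
    push Not at hcon
    obtain ⟨i, hi⟩ := si_eq f hf p hp t x ε hε ht hcon
    exact h2 i hi
  · by_contra hcon
    push Not at hcon
    obtain ⟨i, hi⟩ := sp_eq f hf p hp t x ε hε ht hcon
    exact h1 i hi

end Pool.Agent.Y495.LG
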